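import Pool.Agent.N978.ME.Scalar

/-!
# Blow-up for the Euler equations with values in Hermitian matrices

The Euler equations on the torus `𝕋³ = (ℝ/2πℤ)³` for velocities whose three components are
Hermitian `n × n` matrices, the product of two numbers being replaced by the symmetrised product
`½ (A B + B A)` of matrices:
`∂ₜ uⱼ + ½ ∑ᵢ (uᵢ ∂ᵢuⱼ + ∂ᵢuⱼ uᵢ) + ∂ⱼ P = 0`, `∑ⱼ ∂ⱼuⱼ = 0`.
The solutions which are multiples of the unit matrix are exactly the solutions of the Euler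
equations. For `n ≥ 3` the system contains the Camassa-Holm equation, and smooth periodic data
(trigonometric polynomials) lead to blow-up in finite time.
-/

open Set

namespace Pool.Agent.Results.MP_b0497c_an.MatrixEulerBlowup

/-- The space `ℝ³`. -/
abbrev Vec := Fin 3 → ℝ

/-- `f` has period `2π` in each coordinate. -/
def Periodic {E : Type} (f : Vec → E) : Prop :=
  ∀ (i : Fin 3) (x : Vec), f (x + Pi.single i (2 * Real.pi)) = f x

/-- The partial derivative `∂ᵢ F` of a field of matrices, entry by entry. -/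
noncomputable def D {n : ℕ} (i : Fin 3) (F : Vec → Matrix (Fin n) (Fin n) ℂ) (x : Vec) :
    Matrix (Fin n) (Fin n) ℂ :=
  Matrix.of fun p q => fderiv ℝ (fun y => F y p q) x (Pi.single i 1)

/-- `(u, P)` is a classical solution on `[0, T)` of the Euler equations on `𝕋³` with values in the
Hermitian `n × n` matrices: `u` and `P` are `C¹` on `[0, T) × ℝ³` and periodic, the three
components of `u` are Hermitian matrices, `∑ⱼ ∂ⱼuⱼ = 0` and
`∂ₜ uⱼ + ½ ∑ᵢ (uᵢ ∂ᵢuⱼ + ∂ᵢuⱼ uᵢ) + ∂ⱼ P = 0`. -/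
structure Classical (n : ℕ) (T : ℝ) (u : ℝ → Vec → Fin 3 → Matrix (Fin n) (Fin n) ℂ)
    (P : ℝ → Vec → Matrix (Fin n) (Fin n) ℂ) : Prop where
  c1_u : ∀ j p q, ContDiffOn ℝ 1 (fun z : ℝ × Vec => u z.1 z.2 j p q) (Ico 0 T ×ˢ univ)
  c1_P : ∀ p q, ContDiffOn ℝ 1 (fun z : ℝ × Vec => P z.1 z.2 p q) (Ico 0 T ×ˢ univ)
  per_u : ∀ t ∈ Ico 0 T, Periodic (u t)
  per_P : ∀ t ∈ Ico 0 T, Periodic (P t)
  hermitian : ∀ t ∈ Ico 0 T, ∀ x j, (u t x j).IsHermitian
  divfree : ∀ t ∈ Ico 0 T, ∀ x, ∑ j, D j (fun y => u t y j) x = 0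
  momentum : ∀ t ∈ Ioo 0 T, ∀ x j,
    (Matrix.of fun p q => deriv (fun s => u s x j p q) t)
      + (1 / 2 : ℂ) • ∑ i, (u t x i * D i (fun y => u t y j) x + D i (fun y => u t y j) x * u t x i)
      + D j (P t) x = 0

/-- `(v, π)` is a classical solution of the Euler equations on `𝕋³` on `[0, T)`. -/
structure Euler (T : ℝ) (v : ℝ → Vec → Fin 3 → ℝ) (π : ℝ → Vec → ℝ) : Prop where
  c1_v : ∀ j, ContDiffOn ℝ 1 (fun z : ℝ × Vec => v z.1 z.2 j) (Ico 0 T ×ˢ univ)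
  c1_π : ContDiffOn ℝ 1 (fun z : ℝ × Vec => π z.1 z.2) (Ico 0 T ×ˢ univ)
  per_v : ∀ t ∈ Ico 0 T, Periodic (v t)
  per_π : ∀ t ∈ Ico 0 T, Periodic (π t)
  divfree : ∀ t ∈ Ico 0 T, ∀ x, ∑ j, fderiv ℝ (fun y => v t y j) x (Pi.single j 1) = 0
  momentum : ∀ t ∈ Ioo 0 T, ∀ x j, deriv (fun s => v s x j) t
    + ∑ i, v t x i * fderiv ℝ (fun y => v t y j) x (Pi.single i 1)
    + fderiv ℝ (π t) x (Pi.single j 1) = 0

/-- `w` is a `2π`-periodic solution on `[0, T)` of the Camassa-Holm equation (up to the scaling of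
the variables), written with the pressure `q`:
`∂ₜw + (9/2) w w' + q' = 0`, `q + (3/2) ∂ₜw' + (9/8) (w')² + (9/4) w w'' = 0`;
`w`, `w'` and `q` are `C¹` on `[0, T) × ℝ`. -/
structure CamassaHolm (T : ℝ) (w q : ℝ → ℝ → ℝ) : Prop where
  c1_w : ContDiffOn ℝ 1 (fun z : ℝ × ℝ => w z.1 z.2) (Ico 0 T ×ˢ univ)
  c1_dw : ContDiffOn ℝ 1 (fun z : ℝ × ℝ => deriv (w z.1) z.2) (Ico 0 T ×ˢ univ)
  c1_q : ContDiffOn ℝ 1 (fun z : ℝ × ℝ => q z.1 z.2) (Ico 0 T ×ˢ univ)
  per_w : ∀ t ∈ Ico 0 T, Function.Periodic (w t) (2 * Real.pi)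
  per_q : ∀ t ∈ Ico 0 T, Function.Periodic (q t) (2 * Real.pi)
  eq1 : ∀ t ∈ Ioo 0 T, ∀ s, deriv (fun τ => w τ s) t + 9 / 2 * (w t s * deriv (w t) s)
    + deriv (q t) s = 0
  eq2 : ∀ t ∈ Ioo 0 T, ∀ s, q t s + 3 / 2 * deriv (fun τ => deriv (w τ) s) t
    + 9 / 8 * deriv (w t) s ^ 2 + 9 / 4 * (w t s * deriv (deriv (w t)) s) = 0

/-- The field of Hermitian matrices with the entries
`(uⱼ)_{pq} = e^{i(x_p - x_q)} (w(s) + (3i/2) (δ_{jp} - δ_{jq}) w'(s))`, `s = x₀ + x₁ + x₂`, for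
`p ≠ q` in `{0, 1, 2}`; all other entries are zero. -/
noncomputable def field (n : ℕ) (w : ℝ → ℝ) (x : Vec) (j : Fin 3) : Matrix (Fin n) (Fin n) ℂ :=
  Matrix.of fun p q => if h : p.val < 3 ∧ q.val < 3 ∧ p ≠ q then
    Complex.exp (Complex.I * ((x ⟨p.val, h.1⟩ : ℂ) - (x ⟨q.val, h.2.1⟩ : ℂ)))
      * ((w (x 0 + x 1 + x 2) : ℂ) + 3 / 2 * Complex.I
        * ((if j.val = p.val then 1 else 0) - (if j.val = q.val then 1 else 0))
        * (deriv w (x 0 + x 1 + x 2) : ℝ))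
    else 0

theorem Classical.sol {n : ℕ} {T : ℝ} {u : ℝ → Vec → Fin 3 → Matrix (Fin n) (Fin n) ℂ}
    {P : ℝ → Vec → Matrix (Fin n) (Fin n) ℂ} (h : Classical n T u P) :
    Pool.Agent.N978.ME.Sol (Fin n) T u P where
  c1_u := h.c1_u
  c1_P := h.c1_P
  per_u := fun t ht => Pool.Agent.N978.ME.perB_of_per2 (h.per_u t ht)
  per_P := fun t ht => Pool.Agent.N978.ME.perB_of_per2 (h.per_P t ht)
  herm := h.hermitian
  divfree := fun t ht x p q => by
    have h1 := congrFun (congrFun (h.divfree t ht x) p) q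
    rw [Matrix.sum_apply] at h1
    exact h1
  momentum := fun t ht x j p q => congrFun (congrFun (h.momentum t ht x j) p) q

theorem classical_of_sol {n : ℕ} {T : ℝ} {u : ℝ → Vec → Fin 3 → Matrix (Fin n) (Fin n) ℂ}
    {P : ℝ → Vec → Matrix (Fin n) (Fin n) ℂ} (h : Pool.Agent.N978.ME.Sol (Fin n) T u P)
    (hu : ∀ t ∈ Ico 0 T, Periodic (u t)) (hP : ∀ t ∈ Ico 0 T, Periodic (P t)) :
    Classical n T u P where
  c1_u := h.c1_u
  c1_P := h.c1_P
  per_u := hu
  per_P := hP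
  hermitian := h.herm
  divfree := fun t ht x => by
    ext p q
    rw [Matrix.sum_apply]
    exact h.divfree t ht x p q
  momentum := fun t ht x j => by
    ext p q
    exact h.momentum t ht x j p q

theorem field_eq (n : ℕ) (w : ℝ → ℝ) : field n w = Pool.Agent.N978.ME.fld n w := by
  funext x j
  ext p q
  unfold field Pool.Agent.N978.ME.fld Pool.Agent.N978.ME.ext3
  rw [Matrix.of_apply, Matrix.of_apply]
  by_cases h3 : p.val < 3 ∧ q.val < 3
  · rw [dif_pos h3, Matrix.of_apply]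
    unfold Pool.Agent.N978.ME.dat
    by_cases hpq : p = q
    · rw [dif_neg (fun h => h.2.2 hpq), if_pos (by simp [hpq])]
    · have hne : ¬ ((⟨p.val, h3.1⟩ : Fin 3) = ⟨q.val, h3.2⟩) := fun h => by
        apply hpq
        have h4 := congrArg Fin.val h
        exact Fin.ext h4
      rw [dif_pos ⟨h3.1, h3.2, hpq⟩, if_neg hne]
      congr 1
      unfold Pool.Agent.N978.ME.lam
      simp only [Fin.ext_iff]
      push_cast
      ring
  · rw [dif_neg (fun h => h3 ⟨h.1, h.2.1⟩), dif_neg h3]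

theorem euler_iff {n : ℕ} (hn : 1 ≤ n) {T : ℝ} {v : ℝ → Vec → Fin 3 → ℝ} {π : ℝ → Vec → ℝ} :
    Euler T v π ↔ Classical n T (fun t x j => ((v t x j : ℝ) : ℂ) • 1)
      (fun t x => ((π t x : ℝ) : ℂ) • 1) := by
  -- differentiability
  have hdv : ∀ {v : ℝ → Vec → ℝ}, ContDiffOn ℝ 1 (fun z : ℝ × Vec => v z.1 z.2)
      (Ico 0 T ×ˢ univ) → ∀ t ∈ Ico 0 T, ∀ x, DifferentiableAt ℝ (v t) x := by
    intro v hv t ht x
    have h1 : ContDiff ℝ 1 (v t) := by
      rw [← contDiffOn_univ]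
      exact hv.comp (contDiff_const.prodMk contDiff_id).contDiffOn (fun x _ => ⟨ht, mem_univ _⟩)
    exact (h1.differentiable one_ne_zero) x
  have hdt : ∀ {v : ℝ → Vec → ℝ}, ContDiffOn ℝ 1 (fun z : ℝ × Vec => v z.1 z.2)
      (Ico 0 T ×ˢ univ) → ∀ t ∈ Ioo 0 T, ∀ x, DifferentiableAt ℝ (fun s => v s x) t := by
    intro v hv t ht x
    exact (Pool.Agent.N978.ME.slice_deriv (F := v)
      (hv.mono (prod_mono Ioo_subset_Ico_self subset_rfl)) ht x).differentiableAt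
  -- the equations at one point
  have key : ∀ {v : ℝ → Vec → Fin 3 → ℝ} {π : ℝ → Vec → ℝ},
      (∀ j, ContDiffOn ℝ 1 (fun z : ℝ × Vec => v z.1 z.2 j) (Ico 0 T ×ˢ univ)) →
      (ContDiffOn ℝ 1 (fun z : ℝ × Vec => π z.1 z.2) (Ico 0 T ×ˢ univ)) →
      (∀ t ∈ Ico 0 T, ∀ x, (∑ j, D (n := n) j (fun y => ((v t y j : ℝ) : ℂ) • 1) x)
        = ((∑ j, fderiv ℝ (fun y => v t y j) x (Pi.single j 1) : ℝ) : ℂ) • 1) ∧
      (∀ t ∈ Ioo 0 T, ∀ x j, (Matrix.of fun p q => deriv (fun s => (((v s x j : ℝ) : ℂ)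
          • (1 : Matrix (Fin n) (Fin n) ℂ)) p q) t)
        + (1 / 2 : ℂ) • ∑ i, (((v t x i : ℝ) : ℂ) • (1 : Matrix (Fin n) (Fin n) ℂ)
            * D i (fun y => ((v t y j : ℝ) : ℂ) • 1) x
          + D i (fun y => ((v t y j : ℝ) : ℂ) • 1) x * (((v t x i : ℝ) : ℂ) • 1))
        + D j (fun y => ((π t y : ℝ) : ℂ) • 1) x
        = ((deriv (fun s => v s x j) t
          + ∑ i, v t x i * fderiv ℝ (fun y => v t y j) x (Pi.single i 1)
          + fderiv ℝ (π t) x (Pi.single j 1) : ℝ) : ℂ) • 1) := by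
    intro v π hv hπ
    constructor
    · intro t ht x
      have h1 : ∀ j, D (n := n) j (fun y => ((v t y j : ℝ) : ℂ) • 1) x
          = ((fderiv ℝ (fun y => v t y j) x (Pi.single j 1) : ℝ) : ℂ) • 1 := fun j =>
        Pool.Agent.N978.ME.pdM_scalar (hdv (v := fun t y => v t y j) (hv j) t ht x) j
      simp_rw [h1]
      rw [← Finset.sum_smul]
      push_cast
      rfl
    · intro t ht x j
      have hI : t ∈ Ico 0 T := ⟨ht.1.le, ht.2⟩
      have h1 : ∀ i, D (n := n) i (fun y => ((v t y j : ℝ) : ℂ) • 1) x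
          = ((fderiv ℝ (fun y => v t y j) x (Pi.single i 1) : ℝ) : ℂ) • 1 := fun i =>
        Pool.Agent.N978.ME.pdM_scalar (hdv (v := fun t y => v t y j) (hv j) t hI x) i
      have h2 : D (n := n) j (fun y => ((π t y : ℝ) : ℂ) • 1) x
          = ((fderiv ℝ (π t) x (Pi.single j 1) : ℝ) : ℂ) • 1 :=
        Pool.Agent.N978.ME.pdM_scalar (hdv hπ t hI x) j
      have h3 : (Matrix.of fun p q => deriv (fun s => (((v s x j : ℝ) : ℂ)
          • (1 : Matrix (Fin n) (Fin n) ℂ)) p q) t)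
          = ((deriv (fun s => v s x j) t : ℝ) : ℂ) • (1 : Matrix (Fin n) (Fin n) ℂ) := by
        ext p q
        rw [Matrix.of_apply, Matrix.smul_apply, smul_eq_mul]
        have h4 := ((hdt (v := fun t y => v t y j) (hv j) t ht x).hasDerivAt).ofReal_comp.mul_const
          ((1 : Matrix (Fin n) (Fin n) ℂ) p q)
        exact h4.deriv
      simp_rw [h1]
      rw [h2, h3, Pool.Agent.N978.ME.adv_scalar, ← add_smul, ← add_smul]
      push_cast
      rfl
  constructor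
  · intro h
    obtain ⟨k1, k2⟩ := key h.c1_v h.c1_π
    refine ⟨fun j p q => (Pool.Agent.N978.ME.c1_entry hn).2 (h.c1_v j) p q,
      fun p q => (Pool.Agent.N978.ME.c1_entry hn).2 h.c1_π p q, fun t ht i x => ?_,
      fun t ht i x => ?_, fun t ht x j => ?_, fun t ht x => ?_, fun t ht x j => ?_⟩
    · funext j
      rw [h.per_v t ht i x]
    · simp only [h.per_π t ht i x]
    · unfold Matrix.IsHermitian
      rw [Matrix.conjTranspose_smul, Matrix.conjTranspose_one]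
      congr 1
      simp
    · rw [k1 t ht x, h.divfree t ht x]
      simp
    · rw [k2 t ht x j, h.momentum t ht x j]
      simp
  · intro h
    have c1 : ∀ j, ContDiffOn ℝ 1 (fun z : ℝ × Vec => v z.1 z.2 j) (Ico 0 T ×ˢ univ) := fun j =>
      (Pool.Agent.N978.ME.c1_entry hn).1 (fun p q => h.c1_u j p q)
    have c2 : ContDiffOn ℝ 1 (fun z : ℝ × Vec => π z.1 z.2) (Ico 0 T ×ˢ univ) :=
      (Pool.Agent.N978.ME.c1_entry hn).1 (fun p q => h.c1_P p q)
    obtain ⟨k1, k2⟩ := key c1 c2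
    have inj : ∀ {a b : ℝ}, ((a : ℂ) • (1 : Matrix (Fin n) (Fin n) ℂ)) = (b : ℂ) • 1 → a = b := by
      intro a b hab
      have h1 := congrFun (congrFun hab ⟨0, hn⟩) ⟨0, hn⟩
      simpa using h1
    refine ⟨c1, c2, fun t ht i x => ?_, fun t ht i x => ?_, fun t ht x => ?_, fun t ht x j => ?_⟩
    · funext j
      exact inj (congrFun (h.per_u t ht i x) j)
    · exact inj (h.per_P t ht i x)
    · have h1 := h.divfree t ht x
      rw [k1 t ht x] at h1
      exact (Pool.Agent.N978.ME.smul_one_eq_zero hn _).1 h1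
    · have h1 := h.momentum t ht x j
      rw [k2 t ht x j] at h1
      exact (Pool.Agent.N978.ME.smul_one_eq_zero hn _).1 h1

theorem Classical.congr {n : ℕ} {T : ℝ} {u u' : ℝ → Vec → Fin 3 → Matrix (Fin n) (Fin n) ℂ}
    {P : ℝ → Vec → Matrix (Fin n) (Fin n) ℂ} (h : Classical n T u P)
    (hu : ∀ t ∈ Ico 0 T, u' t = u t) : Classical n T u' P where
  c1_u := fun j p q => (h.c1_u j p q).congr fun z hz => by rw [hu z.1 hz.1]
  c1_P := h.c1_P
  per_u := fun t ht => by rw [hu t ht]; exact h.per_u t ht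
  per_P := h.per_P
  hermitian := fun t ht => by rw [hu t ht]; exact h.hermitian t ht
  divfree := fun t ht => by rw [hu t ht]; exact h.divfree t ht
  momentum := fun t ht x j => by
    have h1 := h.momentum t ht x j
    rw [hu t ⟨ht.1.le, ht.2⟩]
    have h2 : ∀ p q, deriv (fun s => u' s x j p q) t = deriv (fun s => u s x j p q) t := by
      intro p q
      apply Filter.EventuallyEq.deriv_eq
      filter_upwards [Ioo_mem_nhds ht.1 ht.2] with τ hτ
      rw [hu τ ⟨hτ.1.le, hτ.2⟩]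
    simp_rw [h2]
    exact h1

/-- Let `n ≥ 3`, let `w₀` be an odd function and `T > 0`. The classical solutions on `[0, T)` of the
Euler equations on `𝕋³` with values in the Hermitian `n × n` matrices and with the initial values
`field n w₀` are exactly the fields `field n (w t)` where `w` is a solution on `[0, T)` of the
Camassa-Holm equation with `w 0 = w₀`. If `w₀'(0) < 0` and `T > 4 / (3 |w₀'(0)|)`, then there is no
such solution. Example: for `w₀ = - a sin`, `a > 0`, the initial values are trigonometric polynomials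
and there is no classical solution on `[0, T)` for `T > 4 / (3 a)`. -/
theorem result (n : ℕ) (hn : 3 ≤ n) (w₀ : ℝ → ℝ) (hodd : ∀ s, w₀ (-s) = -w₀ s) (T : ℝ)
    (hT : 0 < T) :
    (∀ u : ℝ → Vec → Fin 3 → Matrix (Fin n) (Fin n) ℂ,
      ((∃ P, Classical n T u P) ∧ u 0 = field n w₀) ↔
        ∃ w q, CamassaHolm T w q ∧ w 0 = w₀ ∧ ∀ t ∈ Ico 0 T, u t = field n (w t)) ∧
    (deriv w₀ 0 < 0 → 4 / (3 * -deriv w₀ 0) < T →
      ¬ ∃ u P, Classical n T u P ∧ u 0 = field n w₀) := by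
  have main : ∀ u P, Classical n T u P → u 0 = field n w₀ →
        (∃ w q, CamassaHolm T w q ∧ w 0 = w₀ ∧ ∀ t ∈ Ico 0 T, u t = field n (w t)) ∧
        (deriv w₀ 0 < 0 → T ≤ 4 / (3 * -deriv w₀ 0)) := by
    intro u P h h0
    rw [field_eq] at h0
    obtain ⟨⟨w, q, hCH, hw, hu⟩, hT⟩ :=
      Pool.Agent.N978.ME.final hn h.sol h.per_u h.per_P hodd h0
    refine ⟨⟨w, q, ⟨hCH.c1_w, hCH.c1_dw, hCH.c1_q, hCH.per_w, hCH.per_q, hCH.eq1, hCH.eq2⟩, hw,
      fun t ht => ?_⟩, hT⟩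
    rw [hu t ht, field_eq]
  refine ⟨fun u => ⟨?_, ?_⟩, ?_⟩
  · rintro ⟨⟨P, h⟩, h0⟩
    exact (main u P h h0).1
  · rintro ⟨w, q, h, hw, hu⟩
    have hCH : Pool.Agent.N978.ME.CH T w q :=
      ⟨h.c1_w, h.c1_dw, h.c1_q, h.per_w, h.per_q, h.eq1, h.eq2⟩
    obtain ⟨P, hP⟩ := Pool.Agent.N978.ME.CH.classical hn hCH
    refine ⟨⟨P, ?_⟩, ?_⟩
    · refine Classical.congr (classical_of_sol hP.1 hP.2.1 hP.2.2) fun t ht => ?_
      rw [hu t ht, field_eq]
    · rw [hu 0 ⟨le_rfl, hT⟩, hw]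
  · rintro hneg hlt ⟨u, P, h, h0⟩
    exact absurd ((main u P h h0).2 hneg) (not_le.2 hlt)

end Pool.Agent.Results.MP_b0497c_an.MatrixEulerBlowup
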